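import Mathlib
import Pool.Agent.H648R2.S.Digits

set_option autoImplicit false

open Finset Polynomial

namespace Pool.Agent.H352.Win

open Pool.Agent.H648R2.S

/-- a set of at most `K` points of `[0, m)` misses one of the first `K + 1` blocks of length `w` -/
lemma exists_gap (m K w : ℕ) (hw : w * (K + 1) ≤ m) (S : Finset ℕ) (hS : S.card ≤ K) :
    ∃ u, u + w ≤ m ∧ ∀ i, u ≤ i → i < u + w → i ∉ S := by
  classical
  by_contra hcon
  push Not at hcon
  have h1 : ∀ k : Fin (K + 1), ∃ i, k.val * w ≤ i ∧ i < k.val * w + w ∧ i ∈ S := by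
    intro k
    apply hcon
    have h2 : k.val + 1 ≤ K + 1 := k.isLt
    calc k.val * w + w = (k.val + 1) * w := by ring
      _ ≤ (K + 1) * w := Nat.mul_le_mul_right _ h2
      _ ≤ m := by rw [mul_comm]; exact hw
  choose f hf1 hf2 hf3 using h1
  have hinj : Function.Injective f := by
    intro k l hkl
    have a1 := hf1 k
    have a2 := hf2 k
    have b1 := hf1 l
    have b2 := hf2 l
    rw [hkl] at a1 a2
    have h3 : k.val * w < (l.val + 1) * w := by rw [Nat.add_mul, one_mul]; omega
    have h4 : l.val * w < (k.val + 1) * w := by rw [Nat.add_mul, one_mul]; omega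
    have h5 := lt_of_mul_lt_mul_right h3 (Nat.zero_le _)
    have h6 := lt_of_mul_lt_mul_right h4 (Nat.zero_le _)
    exact Fin.ext (by omega)
  have h7 : (Finset.univ.image f).card = K + 1 := by
    rw [Finset.card_image_of_injective _ hinj]; simp
  have h8 : Finset.univ.image f ⊆ S := by
    intro i hi
    obtain ⟨k, _, rfl⟩ := Finset.mem_image.1 hi
    exact hf3 k
  have := Finset.card_le_card h8
  omega

lemma abs_act_le (Q : ℤ[X]) (c : ℕ → ℤ) (T H B : ℕ) (hT : Q.support.card ≤ T)
    (hH : ∀ i, |Q.coeff i| ≤ H) (hc : ∀ n, |c n| ≤ B) (n : ℕ) :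
    |act Q c n| ≤ ((T * (H * B) : ℕ) : ℤ) := by
  rw [act_eq]
  refine (Finset.abs_sum_le_sum_abs _ _).trans ?_
  have h1 : ∀ i ∈ Q.support, |Q.coeff i • c (n + i)| ≤ ((H * B : ℕ) : ℤ) := by
    intro i _
    rw [smul_eq_mul, abs_mul, Nat.cast_mul]
    exact mul_le_mul (hH i) (hc _) (abs_nonneg _) (by positivity)
  refine (Finset.sum_le_card_nsmul _ _ _ h1).trans ?_
  rw [nsmul_eq_mul]
  have h2 : (Q.support.card : ℤ) ≤ T := by exact_mod_cast hT
  have h3 : (0 : ℤ) ≤ ((H * B : ℕ) : ℤ) := by positivity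
  calc (Q.support.card : ℤ) * ((H * B : ℕ) : ℤ) ≤ (T : ℤ) * ((H * B : ℕ) : ℤ) :=
        mul_le_mul_of_nonneg_right h2 h3
    _ = ((T * (H * B) : ℕ) : ℤ) := by push_cast; ring

lemma coeff_sp_mul_bound {D : ℕ} (t : Fin D → ℕ) (g : Fin D → ℤ) (Q : ℤ[X]) (H G : ℕ)
    (hg : ∀ j, |g j| ≤ H) (hQ : ∀ i, |Q.coeff i| ≤ G) (i : ℕ) :
    |(sp t g * Q).coeff i| ≤ ((D * (H * G) : ℕ) : ℤ) := by
  unfold sp
  rw [Finset.sum_mul, finset_sum_coeff]
  refine (Finset.abs_sum_le_sum_abs _ _).trans ?_
  have h1 : ∀ j ∈ (Finset.univ : Finset (Fin D)),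
      |(C (g j) * X ^ (t j) * Q).coeff i| ≤ ((H * G : ℕ) : ℤ) := by
    intro j _
    rw [mul_assoc, coeff_C_mul, coeff_X_pow_mul', abs_mul, Nat.cast_mul]
    apply mul_le_mul (hg j) _ (abs_nonneg _) (by positivity)
    split_ifs
    · exact hQ _
    · rw [abs_zero]; positivity
  refine (Finset.sum_le_card_nsmul _ _ _ h1).trans ?_
  rw [nsmul_eq_mul, Nat.cast_mul]
  simp

/-- rational independence of integer vectors implies real independence -/
lemma real_indep {D m : ℕ} (v : Fin D → Fin m → ℤ)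
    (h1 : LinearIndependent ℚ (fun (j : Fin D) (i : Fin m) => (v j i : ℚ))) (g : Fin D → ℝ)
    (hg : ∀ i, ∑ j, g j * (v j i : ℝ) = 0) : g = 0 := by
  rw [Fintype.linearIndependent_iff] at h1
  funext j
  rw [Pi.zero_apply, ← Module.forall_dual_apply_eq_zero_iff ℚ (g j)]
  intro φ
  refine h1 (fun j => φ (g j)) ?_ j
  funext i
  rw [Finset.sum_apply, Pi.zero_apply]
  have h3 : φ (∑ j, g j * (v j i : ℝ)) = 0 := by
    rw [hg i]; simp
  rw [map_sum] at h3
  rw [← h3]
  apply Finset.sum_congr rfl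
  intro k _
  simp only [Pi.smul_apply, smul_eq_mul]
  have h4 : g k * (v k i : ℝ) = v k i • g k := by
    rw [zsmul_eq_mul]; ring
  rw [h4, map_zsmul, zsmul_eq_mul]
  ring

/-- **General window theorem**: for a bounded integer expansion `c` of an algebraic irrational
number, no nontrivial real linear combination of `D` windows of length `m`, at distinct positions at
most `C m`, agrees outside `K` places with a sum of `E` periodic sequences with total period at most
`(1 - ε) m / (K + 1)`, once `m` is large. -/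
theorem general (b : ℕ) (hb : 2 ≤ b) (ξ : ℝ) (hξ : IsAlgebraic ℚ ξ) (hirr : Irrational ξ)
    (B D E K C : ℕ) (ε : ℝ) (hε : 0 < ε) :
    ∃ M : ℕ, ∀ (c : ℕ → ℤ) (x : ℕ → ℝ), (∀ n, |c n| ≤ B) → (∀ n, |x n| ≤ B) →
      (∀ n, (b : ℝ) * x n = c (n + 1) + x (n + 1)) → (∀ n, ∃ k : ℤ, ξ * (b : ℝ) ^ n - x n = k) →
      ∀ m : ℕ, M ≤ m → ∀ t : Fin D → ℕ, Function.Injective t → (∀ j, t j ≤ C * m) →
      ∀ lam : Fin D → ℝ, lam ≠ 0 → ∀ p : Fin E → ℕ, (∀ l, 0 < p l) →
      ((∑ l, p l : ℕ) : ℝ) ≤ (1 - ε) * m / (K + 1) →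
      ∀ f : Fin E → ℕ → ℝ, (∀ l n, f l (n + p l) = f l n) →
      K < ((Finset.range m).filter
        (fun i => ∑ j, lam j * (c (t j + i + 1) : ℝ) ≠ ∑ l, f l i)).card := by
  classical
  obtain ⟨N, hN⟩ := exists_nat_gt (1 / ε)
  have hN0 : 0 < N := by
    rcases Nat.eq_zero_or_pos N with h | h
    · rw [h, Nat.cast_zero] at hN
      have : 0 < 1 / ε := by positivity
      linarith
    · exact h
  set R : ℕ := 2 * N * (K + 1) with hR
  have hR0 : 0 < R := by rw [hR]; positivity
  obtain ⟨H, hH⟩ := uniform_rel D (2 ^ E * (2 ^ E * B))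
  obtain ⟨M, hM⟩ := core b hb ξ hξ hirr B (D * 2 ^ E) (D * (H * 2 ^ E)) (2 * R * (C + 2))
  refine ⟨R * (M + 1), ?_⟩
  intro c x hc hx hrec hint m hm t ht htC lam hlam p hp hsum f hf
  by_contra hcon
  push Not at hcon
  obtain ⟨h1, h2, h3, h4⟩ := perPoly_props E p hp
  set w : ℕ := m / (K + 1) with hw
  set m' : ℕ := m / R with hm'
  have hm'1 : m' * R ≤ m := Nat.div_mul_le_self _ _
  have hm'2 : m < (m' + 1) * R := by
    have := Nat.lt_div_mul_add (a := m) hR0
    rw [hm', Nat.add_mul, one_mul]; omega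
  have hm'M : M + 1 ≤ m' := by
    rw [hm', Nat.le_div_iff_mul_le hR0]
    rw [mul_comm]; exact hm
  have hεN : 1 < ε * N := by
    rw [div_lt_iff₀ hε] at hN; linarith
  have hw1 : w * (K + 1) ≤ m := Nat.div_mul_le_self _ _
  have hw2 : m < (w + 1) * (K + 1) := by
    have := Nat.lt_div_mul_add (a := m) (Nat.succ_pos K)
    rw [hw, Nat.add_mul, one_mul]; exact this
  -- the short window fits
  have hfit : (∑ l, p l) + m' ≤ w := by
    have hK0 : (0 : ℝ) < (K : ℝ) + 1 := by positivity
    have a1 : (m : ℝ) < (w + 1) * (K + 1) := by exact_mod_cast hw2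
    have a2 : (m' : ℝ) * (2 * N * (K + 1)) ≤ m := by
      have : ((m' * R : ℕ) : ℝ) ≤ m := by exact_mod_cast hm'1
      rw [hR] at this
      push_cast at this
      linarith
    have a3 : ((∑ l, p l : ℕ) : ℝ) * (K + 1) ≤ (1 - ε) * m := by
      rw [le_div_iff₀ hK0] at hsum
      exact hsum
    have a4 : (1 : ℝ) ≤ m' := by
      have : 1 ≤ m' := by omega
      exact_mod_cast this
    have a5 : (0 : ℝ) ≤ m := Nat.cast_nonneg _
    -- `m' (K+1) + (K+1) ≤ 2 m' (K+1) ≤ ε m`
    have a6 : (m' : ℝ) * (K + 1) * 2 ≤ ε * m := by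
      have b1 : ε * ((m' : ℝ) * (2 * N * (K + 1))) ≤ ε * m :=
        mul_le_mul_of_nonneg_left a2 hε.le
      have b2 : (m' : ℝ) * (K + 1) * 2 * 1 ≤ (m' : ℝ) * (K + 1) * 2 * (ε * N) := by
        apply mul_le_mul_of_nonneg_left hεN.le
        positivity
      calc (m' : ℝ) * (K + 1) * 2 = (m' : ℝ) * (K + 1) * 2 * 1 := by ring
        _ ≤ (m' : ℝ) * (K + 1) * 2 * (ε * N) := b2
        _ = ε * ((m' : ℝ) * (2 * N * (K + 1))) := by ring
        _ ≤ ε * m := b1
    have a7 : ((((∑ l, p l) + m' : ℕ) : ℝ)) * (K + 1) < (w + 1) * (K + 1) - (K + 1) + (K + 1) := by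
      push_cast
      push_cast at a3
      nlinarith
    have a8 : ((((∑ l, p l) + m' : ℕ) : ℝ)) < w + 1 := by
      have : ((((∑ l, p l) + m' : ℕ) : ℝ)) * (K + 1) < ((w : ℝ) + 1) * (K + 1) := by linarith
      exact lt_of_mul_lt_mul_right this hK0.le
    have a9 : (∑ l, p l) + m' < w + 1 := by exact_mod_cast a8
    omega
  -- a block without exceptions
  obtain ⟨u, hu1, hu2⟩ := exists_gap m K w hw1 _ hcon
  have hagree : ∀ i, u ≤ i → i < u + w →
      ∑ j, lam j * (c (t j + i + 1) : ℝ) = ∑ l, f l i := by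
    intro i hi1 hi2
    have h5 := hu2 i hi1 hi2
    rw [Finset.mem_filter, not_and, not_not] at h5
    exact h5 (Finset.mem_range.2 (by omega))
  -- the integer vectors
  set v : Fin D → Fin m' → ℤ := fun j i => act (perPoly p) c (t j + (u + i.val) + 1) with hv
  have hvrel : ∀ i, ∑ j, lam j * (v j i : ℝ) = 0 := by
    intro i
    have hi := i.isLt
    have e1 : ∀ j, (v j i : ℝ) = act (perPoly p) (fun k => (c (t j + k + 1) : ℝ)) (u + i.val) := by
      intro j
      rw [hv]
      simp only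
      rw [← act_cast, act_eq, act_eq]
      apply Finset.sum_congr rfl
      intro k _
      have : t j + (u + i.val) + 1 + k = t j + (u + i.val + k) + 1 := by omega
      rw [this]
    have e2 : ∑ j, lam j * (v j i : ℝ) =
        act (perPoly p) (fun k => ∑ j, lam j * (c (t j + k + 1) : ℝ)) (u + i.val) := by
      rw [act_eq]
      simp_rw [e1, act_eq]
      simp_rw [Finset.mul_sum]
      rw [Finset.sum_comm]
      apply Finset.sum_congr rfl
      intro k _
      rw [Finset.smul_sum]
      apply Finset.sum_congr rfl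
      intro j _
      rw [zsmul_eq_mul, zsmul_eq_mul]; ring
    rw [e2, act_congr (perPoly p) _ (∑ l, f l) (u + i.val), act_perPoly p f hf]
    · rfl
    · intro k hk
      rw [Finset.sum_apply]
      exact hagree _ (by omega) (by
        have := hk.trans h4
        omega)
  have hvB : ∀ j i, |v j i| ≤ ((2 ^ E * (2 ^ E * B) : ℕ) : ℤ) := by
    intro j i
    exact abs_act_le (perPoly p) c (2 ^ E) (2 ^ E) B h2 h3 hc _
  have hindep : LinearIndependent ℚ (fun (j : Fin D) (i : Fin m') => (v j i : ℚ)) := by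
    by_contra hdep
    rw [← LinearIndependent.iff_fractionRing (R := ℤ), Fintype.not_linearIndependent_iff] at hdep
    obtain ⟨g, hg, j0, hj0⟩ := hdep
    obtain ⟨g', hg'0, hg'H, hg'⟩ := hH m' v hvB
      ⟨g, fun h => hj0 (by rw [h]; rfl), by
        intro i
        have h1 := congrFun hg i
        rw [Finset.sum_apply] at h1
        have h2 : ∑ j, (g j : ℚ) * (v j i : ℚ) = 0 := by
          rw [← h1.trans (Pi.zero_apply i)]
          apply Finset.sum_congr rfl
          intro j _
          rw [Pi.smul_apply, zsmul_eq_mul]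
        exact_mod_cast h2⟩
    have htinj : Function.Injective (fun j => t j + u) := by
      intro j k hjk
      exact ht (by simpa using hjk)
    have hsp0 : sp (fun j => t j + u) g' ≠ 0 := by
      intro h0
      apply hg'0
      funext j
      rw [← sp_coeff_self (fun j => t j + u) htinj g' j, h0]; simp
    obtain ⟨n, hn1, hn2, hn3⟩ := hM c x hc hx hrec hint m' (by omega)
      (sp (fun j => t j + u) g' * perPoly p) (mul_ne_zero hsp0 h1)
      ((support_mul_card _ _).trans (Nat.mul_le_mul (sp_supp_card _ _) h2))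
      (by
        intro i
        have := coeff_sp_mul_bound (fun j => t j + u) g' (perPoly p) H (2 ^ E) hg'H
          (by exact_mod_cast h3) i
        exact_mod_cast this)
      (by
        refine natDegree_mul_le.trans ?_
        have h5 : (sp (fun j => t j + u) g').natDegree ≤ C * m + m :=
          sp_natDegree _ _ _ (fun j => Nat.add_le_add (htC j) (by omega))
        have hwm : w ≤ m := by
          rw [hw]; exact Nat.div_le_self _ _
        have h6 : (perPoly p).natDegree ≤ m := h4.trans (by omega)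
        have h7 : m ≤ 2 * R * m' := by
          have : (m' + 1) * R ≤ 2 * R * m' := by
            have : m' + 1 ≤ 2 * m' := by omega
            calc (m' + 1) * R ≤ (2 * m') * R := Nat.mul_le_mul_right _ this
              _ = 2 * R * m' := by ring
          omega
        calc (sp (fun j => t j + u) g').natDegree + (perPoly p).natDegree
            ≤ (C * m + m) + m := Nat.add_le_add h5 h6
          _ = (C + 2) * m := by ring
          _ ≤ (C + 2) * (2 * R * m') := Nat.mul_le_mul_left _ h7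
          _ = 2 * R * (C + 2) * m' := by ring)
    apply hn3
    rw [act_mul, sp_act]
    have h5 := hg' ⟨n - 1, by omega⟩
    rw [← h5]
    apply Finset.sum_congr rfl
    intro j _
    congr 1
    simp only [hv]
    congr 1
    omega
  exact hlam (real_indep v hindep lam hvrel)

end Pool.Agent.H352.Win
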