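import Mathlib
import Pool.Agent.H352.Win.General

set_option autoImplicit false

open Finset

namespace Pool.Agent.H352.Win

open Pool.Agent.H648R2.S

lemma summable_tail (b : ℕ) (hb : 2 ≤ b) (c : ℕ → ℤ) (B : ℕ) (hc : ∀ n, |c (n + 1)| ≤ B) (n : ℕ) :
    Summable (fun i : ℕ => (c (n + i + 1) : ℝ) / (b : ℝ) ^ (i + 1)) := by
  have hbR : (2 : ℝ) ≤ b := by exact_mod_cast hb
  have hb0 : (0 : ℝ) < b := by linarith
  have h1 : Summable (fun i : ℕ => (B : ℝ) / b * ((1 : ℝ) / b) ^ i) := by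
    apply Summable.mul_left
    apply summable_geometric_of_lt_one (by positivity)
    rw [div_lt_one hb0]; linarith
  refine Summable.of_norm_bounded h1 ?_
  intro i
  rw [Real.norm_eq_abs, abs_div, abs_of_pos (pow_pos hb0 _), one_div, inv_pow, pow_succ]
  have h2 : |(c (n + i + 1) : ℝ)| ≤ B := by
    have := hc (n + i)
    exact_mod_cast this
  rw [div_mul_eq_mul_div, ← div_eq_mul_inv, div_div]
  gcongr

lemma tail_bound (b : ℕ) (hb : 2 ≤ b) (c : ℕ → ℤ) (B : ℕ) (hc : ∀ n, |c (n + 1)| ≤ B) (n : ℕ) :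
    |∑' i : ℕ, (c (n + i + 1) : ℝ) / (b : ℝ) ^ (i + 1)| ≤ B := by
  have hbR : (2 : ℝ) ≤ b := by exact_mod_cast hb
  have hb0 : (0 : ℝ) < b := by linarith
  have hlt : (1 : ℝ) / b < 1 := by rw [div_lt_one hb0]; linarith
  have h1 : HasSum (fun i : ℕ => (B : ℝ) / b * ((1 : ℝ) / b) ^ i) ((B : ℝ) / b * ((1 : ℝ) - 1 / b)⁻¹) :=
    (hasSum_geometric_of_lt_one (by positivity) hlt).mul_left _
  have h3 : ‖∑' i : ℕ, (c (n + i + 1) : ℝ) / (b : ℝ) ^ (i + 1)‖ ≤
      (B : ℝ) / b * ((1 : ℝ) - 1 / b)⁻¹ := by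
    apply tsum_of_norm_bounded h1
    intro i
    rw [Real.norm_eq_abs, abs_div, abs_of_pos (pow_pos hb0 _), one_div, inv_pow, pow_succ]
    have h2 : |(c (n + i + 1) : ℝ)| ≤ B := by
      have := hc (n + i)
      exact_mod_cast this
    rw [div_mul_eq_mul_div, ← div_eq_mul_inv, div_div]
    gcongr
  rw [Real.norm_eq_abs] at h3
  refine h3.trans ?_
  have h4 : (B : ℝ) / b * ((1 : ℝ) - 1 / b)⁻¹ = B / (b - 1) := by
    have : (b : ℝ) - 1 ≠ 0 := by linarith
    field_simp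
  rw [h4]
  apply div_le_self (Nat.cast_nonneg _)
  linarith

/-- the window theorem for every bounded integer expansion `x = c_0 + ∑_{n ≥ 1} c_n b^(-n)`,
uniformly in the expansion -/
theorem expansion (b : ℕ) (hb : 2 ≤ b) (ξ : ℝ) (hξ : IsAlgebraic ℚ ξ) (hirr : Irrational ξ)
    (B D E K C : ℕ) (ε : ℝ) (hε : 0 < ε) :
    ∃ M : ℕ, ∀ c : ℕ → ℤ, (∀ n, 1 ≤ n → |c n| ≤ B) →
      HasSum (fun n : ℕ => (c n : ℝ) / (b : ℝ) ^ n) ξ →
      ∀ m : ℕ, M ≤ m → ∀ t : Fin D → ℕ, Function.Injective t → (∀ j, t j ≤ C * m) →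
      ∀ lam : Fin D → ℝ, lam ≠ 0 → ∀ p : Fin E → ℕ, (∀ l, 0 < p l) →
      ((∑ l, p l : ℕ) : ℝ) ≤ (1 - ε) * m / (K + 1) →
      ∀ f : Fin E → ℕ → ℝ, (∀ l n, f l (n + p l) = f l n) →
      K < ((Finset.range m).filter
        (fun i => ∑ j, lam j * (c (t j + i + 1) : ℝ) ≠ ∑ l, f l i)).card := by
  have hbR : (2 : ℝ) ≤ b := by exact_mod_cast hb
  have hb0 : (0 : ℝ) < b := by linarith
  obtain ⟨M, hM⟩ := general b hb ξ hξ hirr B D E K C ε hε
  refine ⟨M, ?_⟩
  intro c hc1 hsum m hm t ht htC lam hlam p hp hps f hf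
  have hc : ∀ n, |c (n + 1)| ≤ B := fun n => hc1 (n + 1) (by omega)
  set y : ℕ → ℝ := fun n => ∑' i : ℕ, (c (n + i + 1) : ℝ) / (b : ℝ) ^ (i + 1) with hy
  set c' : ℕ → ℤ := fun n => if n = 0 then 0 else c n with hc'
  have hc's : ∀ n, c' (n + 1) = c (n + 1) := by
    intro n; rw [hc']; simp
  have hrec : ∀ n, (b : ℝ) * y n = c' (n + 1) + y (n + 1) := by
    intro n
    have h1 := summable_tail b hb c B hc n
    rw [hc's]
    have h2 : y n = (c (n + 1) : ℝ) / b + ∑' i : ℕ, (c (n + (i + 1) + 1) : ℝ) / (b : ℝ) ^ (i + 1 + 1) := by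
      rw [hy]
      simp only
      rw [h1.tsum_eq_zero_add]
      simp
    have h3 : ∑' i : ℕ, (c (n + (i + 1) + 1) : ℝ) / (b : ℝ) ^ (i + 1 + 1) = y (n + 1) / b := by
      rw [hy]
      simp only
      rw [← tsum_div_const]
      apply tsum_congr
      intro i
      have : n + (i + 1) + 1 = n + 1 + i + 1 := by omega
      rw [this, div_div, ← pow_succ]
    rw [h2, h3]
    field_simp
  have hy0 : ξ - y 0 = c 0 := by
    rw [← hsum.tsum_eq, hy]
    simp only
    rw [hsum.summable.tsum_eq_zero_add]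
    simp only [pow_zero, div_one, zero_add]
    ring
  have hint : ∀ n, ∃ k : ℤ, ξ * (b : ℝ) ^ n - y n = k := by
    intro n
    induction n with
    | zero => exact ⟨c 0, by rw [pow_zero, mul_one]; exact hy0⟩
    | succ n ih =>
      obtain ⟨k, hk⟩ := ih
      refine ⟨b * k + c' (n + 1), ?_⟩
      have h1 := hrec n
      push_cast
      rw [← hk, pow_succ]
      linarith
  have h := hM c' y
    (by
      intro n
      rw [hc']
      simp only
      split_ifs with h0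
      · simp
      · obtain ⟨k, rfl⟩ := Nat.exists_eq_succ_of_ne_zero h0
        exact hc k)
    (fun n => tail_bound b hb c B hc n) hrec hint m hm t ht htC lam hlam p hp hps f hf
  have hset : ((Finset.range m).filter
      (fun i => ∑ j, lam j * (c' (t j + i + 1) : ℝ) ≠ ∑ l, f l i)) = ((Finset.range m).filter
      (fun i => ∑ j, lam j * (c (t j + i + 1) : ℝ) ≠ ∑ l, f l i)) := by
    apply Finset.filter_congr
    intro i _
    have : ∑ j, lam j * (c' (t j + i + 1) : ℝ) = ∑ j, lam j * (c (t j + i + 1) : ℝ) := by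
      apply Finset.sum_congr rfl
      intro j _
      rw [hc's]
    rw [this]
  rw [hset] at h
  exact h

/-- the window theorem for digits -/
theorem digits (b : ℕ) (hb : 2 ≤ b) (ξ : ℝ) (hξ : IsAlgebraic ℚ ξ) (hirr : Irrational ξ)
    (D E K C : ℕ) (ε : ℝ) (hε : 0 < ε) :
    ∃ M : ℕ, ∀ m : ℕ, M ≤ m → ∀ t : Fin D → ℕ, Function.Injective t → (∀ j, t j ≤ C * m) →
      ∀ lam : Fin D → ℝ, lam ≠ 0 → ∀ p : Fin E → ℕ, (∀ l, 0 < p l) →
      ((∑ l, p l : ℕ) : ℝ) ≤ (1 - ε) * m / (K + 1) →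
      ∀ f : Fin E → ℕ → ℝ, (∀ l n, f l (n + p l) = f l n) →
      K < ((Finset.range m).filter
        (fun i => ∑ j, lam j * (dig b ξ (t j + i + 1) : ℝ) ≠ ∑ l, f l i)).card := by
  obtain ⟨M, hM⟩ := general b hb ξ hξ hirr b D E K C ε hε
  refine ⟨M, ?_⟩
  exact hM (dig b ξ) (fun n => Int.fract (ξ * (b : ℝ) ^ n)) (dig_abs hb ξ)
    (by
      intro n
      rw [abs_of_nonneg (Int.fract_nonneg _)]
      have h1 := (Int.fract_lt_one (ξ * (b : ℝ) ^ n)).le
      have h2 : (1 : ℝ) ≤ b := by exact_mod_cast (by omega : 1 ≤ b)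
      linarith)
    (dig_rec hb ξ) (fun n => ⟨⌊ξ * (b : ℝ) ^ n⌋, by unfold Int.fract; ring⟩)

/-- the window theorem for integer combinations of the digit sequences of a tuple -/
theorem tuple (b : ℕ) (hb : 2 ≤ b) (n : ℕ) (α : Fin n → ℝ) (halg : ∀ k, IsAlgebraic ℚ (α k))
    (hind : ∀ (q0 : ℚ) (q : Fin n → ℚ), (q0 : ℝ) + ∑ k, (q k : ℝ) * α k = 0 → q = 0)
    (H D E K C : ℕ) (ε : ℝ) (hε : 0 < ε) :
    ∃ M : ℕ, ∀ c : Fin n → ℤ, c ≠ 0 → (∀ k, |c k| ≤ H) →
      ∀ m : ℕ, M ≤ m → ∀ t : Fin D → ℕ, Function.Injective t → (∀ j, t j ≤ C * m) →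
      ∀ lam : Fin D → ℝ, lam ≠ 0 → ∀ p : Fin E → ℕ, (∀ l, 0 < p l) →
      ((∑ l, p l : ℕ) : ℝ) ≤ (1 - ε) * m / (K + 1) →
      ∀ f : Fin E → ℕ → ℝ, (∀ l n, f l (n + p l) = f l n) →
      K < ((Finset.range m).filter
        (fun i => ∑ j, lam j * (∑ k, (c k : ℝ) * (dig b (α k) (t j + i + 1) : ℝ)) ≠
          ∑ l, f l i)).card := by
  classical
  have hone : ∀ c : Fin n → ℤ, c ≠ 0 → (∀ k, |c k| ≤ H) → ∃ M : ℕ,
      ∀ m : ℕ, M ≤ m → ∀ t : Fin D → ℕ, Function.Injective t → (∀ j, t j ≤ C * m) →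
      ∀ lam : Fin D → ℝ, lam ≠ 0 → ∀ p : Fin E → ℕ, (∀ l, 0 < p l) →
      ((∑ l, p l : ℕ) : ℝ) ≤ (1 - ε) * m / (K + 1) →
      ∀ f : Fin E → ℕ → ℝ, (∀ l n, f l (n + p l) = f l n) →
      K < ((Finset.range m).filter
        (fun i => ∑ j, lam j * (∑ k, (c k : ℝ) * (dig b (α k) (t j + i + 1) : ℝ)) ≠
          ∑ l, f l i)).card := by
    intro c hc0 hcH
    set ξ : ℝ := ∑ k, (c k : ℝ) * α k with hξdef
    have hξ : IsAlgebraic ℚ ξ := by
      rw [hξdef]
      refine Finset.sum_induction _ (IsAlgebraic ℚ) (fun _ _ h1 h2 => h1.add h2)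
        isAlgebraic_zero ?_
      intro k _
      exact (isAlgebraic_int (c k)).mul (halg k)
    have hirr : Irrational ξ := by
      rintro ⟨q, hq⟩
      apply hc0
      have h1 := hind (-q) (fun k => (c k : ℚ)) (by
        push_cast
        rw [hq, hξdef]; simp)
      funext k
      have := congrFun h1 k
      simpa using this
    obtain ⟨M, hM⟩ := general b hb ξ hξ hirr (n * (H * b)) D E K C ε hε
    refine ⟨M, ?_⟩
    intro m hm t ht htC lam hlam p hp hps f hf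
    have hbR : (0 : ℝ) ≤ b := Nat.cast_nonneg _
    have hcHR : ∀ k, |(c k : ℝ)| ≤ H := fun k => by exact_mod_cast hcH k
    have h := hM (fun i => ∑ k, c k * dig b (α k) i)
      (fun i => ∑ k, (c k : ℝ) * Int.fract (α k * (b : ℝ) ^ i))
      (by
        intro i
        refine (Finset.abs_sum_le_sum_abs _ _).trans ?_
        have h1 : ∀ k ∈ (Finset.univ : Finset (Fin n)), |c k * dig b (α k) i| ≤
            ((H * b : ℕ) : ℤ) := by
          intro k _
          rw [abs_mul, Nat.cast_mul]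
          exact mul_le_mul (hcH k) (dig_abs hb _ _) (abs_nonneg _) (by positivity)
        refine (Finset.sum_le_card_nsmul _ _ _ h1).trans ?_
        rw [nsmul_eq_mul, Nat.cast_mul]
        simp)
      (by
        intro i
        refine (Finset.abs_sum_le_sum_abs _ _).trans ?_
        have h1 : ∀ k ∈ (Finset.univ : Finset (Fin n)),
            |(c k : ℝ) * Int.fract (α k * (b : ℝ) ^ i)| ≤ ((H * b : ℕ) : ℝ) := by
          intro k _
          rw [abs_mul, Nat.cast_mul, abs_of_nonneg (Int.fract_nonneg (α k * (b : ℝ) ^ i))]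
          have h2 := (Int.fract_lt_one (α k * (b : ℝ) ^ i)).le
          have h3 : (1 : ℝ) ≤ b := by exact_mod_cast (by omega : 1 ≤ b)
          exact mul_le_mul (hcHR k) (h2.trans h3) (Int.fract_nonneg _) (Nat.cast_nonneg _)
        refine (Finset.sum_le_card_nsmul _ _ _ h1).trans ?_
        rw [nsmul_eq_mul, Nat.cast_mul]
        simp)
      (by
        intro i
        push_cast
        rw [Finset.mul_sum, ← Finset.sum_add_distrib]
        apply Finset.sum_congr rfl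
        intro k _
        have := dig_rec hb (α k) i
        rw [← mul_add, ← this]; ring)
      (by
        intro i
        refine ⟨∑ k, c k * ⌊α k * (b : ℝ) ^ i⌋, ?_⟩
        push_cast
        rw [hξdef, Finset.sum_mul, ← Finset.sum_sub_distrib]
        apply Finset.sum_congr rfl
        intro k _
        unfold Int.fract
        ring)
      m hm t ht htC lam hlam p hp hps f hf
    push_cast at h
    exact h
  -- uniformity over the box
  let Box := Fin n → (Finset.Icc (-(H : ℤ)) H)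
  have hbox : ∀ u : Box, ∃ M : ℕ, (fun k => (u k : ℤ)) ≠ 0 →
      ∀ m : ℕ, M ≤ m → ∀ t : Fin D → ℕ, Function.Injective t → (∀ j, t j ≤ C * m) →
      ∀ lam : Fin D → ℝ, lam ≠ 0 → ∀ p : Fin E → ℕ, (∀ l, 0 < p l) →
      ((∑ l, p l : ℕ) : ℝ) ≤ (1 - ε) * m / (K + 1) →
      ∀ f : Fin E → ℕ → ℝ, (∀ l n, f l (n + p l) = f l n) →
      K < ((Finset.range m).filter
        (fun i => ∑ j, lam j * (∑ k, ((u k : ℤ) : ℝ) * (dig b (α k) (t j + i + 1) : ℝ)) ≠
          ∑ l, f l i)).card := by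
    intro u
    by_cases hu : (fun k => (u k : ℤ)) ≠ 0
    · obtain ⟨M, hM⟩ := hone (fun k => (u k : ℤ)) hu (by
        intro k
        have := Finset.mem_Icc.1 (u k).2
        exact abs_le.2 this)
      exact ⟨M, fun _ => hM⟩
    · exact ⟨0, fun h => absurd h hu⟩
  choose Mf hMf using hbox
  refine ⟨∑ u : Box, Mf u, ?_⟩
  intro c hc0 hcH m hm
  let u : Box := fun k => ⟨c k, Finset.mem_Icc.2 (abs_le.1 (hcH k))⟩
  have h1 : Mf u ≤ m := (Finset.single_le_sum (fun _ _ => Nat.zero_le _) (Finset.mem_univ u)).trans hm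
  exact hMf u hc0 m h1

end Pool.Agent.H352.Win
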