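import Mathlib
import Pool.Agent.H352.Win.Expansion

set_option autoImplicit false

open Finset Polynomial

namespace Pool.Agent.H352.Win

open Pool.Agent.H648R2.S

lemma fit (ε : ℝ) (hε : 0 < ε) (N K m s : ℕ) (hεN : 1 < ε * N)
    (hm' : 1 ≤ m / (2 * N * (K + 1)))
    (hsum : (s : ℝ) ≤ (1 - ε) * m / (K + 1)) :
    s + m / (2 * N * (K + 1)) ≤ m / (K + 1) := by
  set m' : ℕ := m / (2 * N * (K + 1)) with hm'def
  set w : ℕ := m / (K + 1) with hw
  have hm'1 : m' * (2 * N * (K + 1)) ≤ m := Nat.div_mul_le_self _ _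
  have hw2 : m < (w + 1) * (K + 1) := by
    have := Nat.lt_div_mul_add (a := m) (Nat.succ_pos K)
    rw [hw, Nat.add_mul, one_mul]; exact this
  have hK0 : (0 : ℝ) < (K : ℝ) + 1 := by positivity
  have a1 : (m : ℝ) < (w + 1) * (K + 1) := by exact_mod_cast hw2
  have a2 : (m' : ℝ) * (2 * N * (K + 1)) ≤ m := by
    have : ((m' * (2 * N * (K + 1)) : ℕ) : ℝ) ≤ m := by exact_mod_cast hm'1
    push_cast at this
    linarith
  have a3 : (s : ℝ) * (K + 1) ≤ (1 - ε) * m := by
    rw [le_div_iff₀ hK0] at hsum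
    exact hsum
  have a4 : (1 : ℝ) ≤ m' := by exact_mod_cast hm'
  have a5 : (0 : ℝ) ≤ m := Nat.cast_nonneg _
  have a6 : (m' : ℝ) * (K + 1) * 2 ≤ ε * m := by
    have b1 : ε * ((m' : ℝ) * (2 * N * (K + 1))) ≤ ε * m :=
      mul_le_mul_of_nonneg_left a2 hε.le
    have b2 : (m' : ℝ) * (K + 1) * 2 * 1 ≤ (m' : ℝ) * (K + 1) * 2 * (ε * N) := by
      apply mul_le_mul_of_nonneg_left hεN.le
      positivity
    calc (m' : ℝ) * (K + 1) * 2 = (m' : ℝ) * (K + 1) * 2 * 1 := by ring
      _ ≤ (m' : ℝ) * (K + 1) * 2 * (ε * N) := b2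
      _ = ε * ((m' : ℝ) * (2 * N * (K + 1))) := by ring
      _ ≤ ε * m := b1
  have a8 : (((s + m' : ℕ) : ℝ)) < w + 1 := by
    have : (((s + m' : ℕ) : ℝ)) * (K + 1) < ((w : ℝ) + 1) * (K + 1) := by
      push_cast
      nlinarith
    exact lt_of_mul_lt_mul_right this hK0.le
  have a9 : s + m' < w + 1 := by exact_mod_cast a8
  omega

/-- the polynomial form for the integer combinations of the digit sequences of a tuple -/
theorem tuple_core (b : ℕ) (hb : 2 ≤ b) (n : ℕ) (α : Fin n → ℝ) (halg : ∀ k, IsAlgebraic ℚ (α k))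
    (hind : ∀ (q0 : ℚ) (q : Fin n → ℚ), (q0 : ℝ) + ∑ k, (q k : ℝ) * α k = 0 → q = 0)
    (H D' H' C : ℕ) :
    ∃ M : ℕ, ∀ c : Fin n → ℤ, c ≠ 0 → (∀ k, |c k| ≤ H) →
      ∀ m : ℕ, M ≤ m → ∀ P : ℤ[X], P ≠ 0 → P.support.card ≤ D' → (∀ i, |P.coeff i| ≤ H') →
      P.natDegree ≤ C * m →
      ∃ i, 1 ≤ i ∧ i ≤ m ∧ act P (fun i => ∑ k, c k * dig b (α k) i) i ≠ 0 := by
  classical
  have hone : ∀ c : Fin n → ℤ, c ≠ 0 → (∀ k, |c k| ≤ H) → ∃ M : ℕ,
      ∀ m : ℕ, M ≤ m → ∀ P : ℤ[X], P ≠ 0 → P.support.card ≤ D' → (∀ i, |P.coeff i| ≤ H') →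
      P.natDegree ≤ C * m →
      ∃ i, 1 ≤ i ∧ i ≤ m ∧ act P (fun i => ∑ k, c k * dig b (α k) i) i ≠ 0 := by
    intro c hc0 hcH
    set ξ : ℝ := ∑ k, (c k : ℝ) * α k with hξdef
    have hξ : IsAlgebraic ℚ ξ := by
      rw [hξdef]
      refine Finset.sum_induction _ (IsAlgebraic ℚ) (fun _ _ h1 h2 => h1.add h2)
        isAlgebraic_zero ?_
      intro k _
      exact (isAlgebraic_int (c k)).mul (halg k)
    have hirr : Irrational ξ := by
      rintro ⟨q, hq⟩
      apply hc0
      have h1 := hind (-q) (fun k => (c k : ℚ)) (by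
        push_cast
        rw [hq, hξdef]; simp)
      funext k
      have := congrFun h1 k
      simpa using this
    obtain ⟨M, hM⟩ := core b hb ξ hξ hirr (n * (H * b)) D' H' C
    refine ⟨M, ?_⟩
    have hbR : (0 : ℝ) ≤ b := Nat.cast_nonneg _
    have hcHR : ∀ k, |(c k : ℝ)| ≤ H := fun k => by exact_mod_cast hcH k
    exact hM (fun i => ∑ k, c k * dig b (α k) i)
      (fun i => ∑ k, (c k : ℝ) * Int.fract (α k * (b : ℝ) ^ i))
      (by
        intro i
        refine (Finset.abs_sum_le_sum_abs _ _).trans ?_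
        have h1 : ∀ k ∈ (Finset.univ : Finset (Fin n)), |c k * dig b (α k) i| ≤
            ((H * b : ℕ) : ℤ) := by
          intro k _
          rw [abs_mul, Nat.cast_mul]
          exact mul_le_mul (hcH k) (dig_abs hb _ _) (abs_nonneg _) (by positivity)
        refine (Finset.sum_le_card_nsmul _ _ _ h1).trans ?_
        rw [nsmul_eq_mul, Nat.cast_mul]
        simp)
      (by
        intro i
        refine (Finset.abs_sum_le_sum_abs _ _).trans ?_
        have h1 : ∀ k ∈ (Finset.univ : Finset (Fin n)),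
            |(c k : ℝ) * Int.fract (α k * (b : ℝ) ^ i)| ≤ ((H * b : ℕ) : ℝ) := by
          intro k _
          rw [abs_mul, Nat.cast_mul, abs_of_nonneg (Int.fract_nonneg (α k * (b : ℝ) ^ i))]
          have h2 := (Int.fract_lt_one (α k * (b : ℝ) ^ i)).le
          have h3 : (1 : ℝ) ≤ b := by exact_mod_cast (by omega : 1 ≤ b)
          exact mul_le_mul (hcHR k) (h2.trans h3) (Int.fract_nonneg _) (Nat.cast_nonneg _)
        refine (Finset.sum_le_card_nsmul _ _ _ h1).trans ?_
        rw [nsmul_eq_mul, Nat.cast_mul]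
        simp)
      (by
        intro i
        push_cast
        rw [Finset.mul_sum, ← Finset.sum_add_distrib]
        apply Finset.sum_congr rfl
        intro k _
        have := dig_rec hb (α k) i
        rw [← mul_add, ← this]; ring)
      (by
        intro i
        refine ⟨∑ k, c k * ⌊α k * (b : ℝ) ^ i⌋, ?_⟩
        push_cast
        rw [hξdef, Finset.sum_mul, ← Finset.sum_sub_distrib]
        apply Finset.sum_congr rfl
        intro k _
        unfold Int.fract
        ring)
  let Box := Fin n → (Finset.Icc (-(H : ℤ)) H)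
  have hbox : ∀ u : Box, ∃ M : ℕ, (fun k => (u k : ℤ)) ≠ 0 →
      ∀ m : ℕ, M ≤ m → ∀ P : ℤ[X], P ≠ 0 → P.support.card ≤ D' → (∀ i, |P.coeff i| ≤ H') →
      P.natDegree ≤ C * m →
      ∃ i, 1 ≤ i ∧ i ≤ m ∧ act P (fun i => ∑ k, (u k : ℤ) * dig b (α k) i) i ≠ 0 := by
    intro u
    by_cases hu : (fun k => (u k : ℤ)) ≠ 0
    · obtain ⟨M, hM⟩ := hone (fun k => (u k : ℤ)) hu (by
        intro k
        have := Finset.mem_Icc.1 (u k).2
        exact abs_le.2 this)
      exact ⟨M, fun _ => hM⟩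
    · exact ⟨0, fun h => absurd h hu⟩
  choose Mf hMf using hbox
  refine ⟨∑ u : Box, Mf u, ?_⟩
  intro c hc0 hcH m hm
  let u : Box := fun k => ⟨c k, Finset.mem_Icc.2 (abs_le.1 (hcH k))⟩
  have h1 : Mf u ≤ m := (Finset.single_le_sum (fun _ _ => Nat.zero_le _) (Finset.mem_univ u)).trans hm
  exact hMf u hc0 m h1

lemma sum_comm3 {D n : ℕ} (F : Fin D → Fin n → ℕ → ℝ) (S : Finset ℕ) :
    ∑ j, ∑ k, ∑ l ∈ S, F j k l = ∑ l ∈ S, ∑ j, ∑ k, F j k l := by
  calc ∑ j, ∑ k, ∑ l ∈ S, F j k l = ∑ j, ∑ l ∈ S, ∑ k, F j k l :=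
        Finset.sum_congr rfl (fun j _ => Finset.sum_comm)
    _ = ∑ l ∈ S, ∑ j, ∑ k, F j k l := Finset.sum_comm

/-- **Rows of combinations of digit matrices.**  Let `z` be a nonzero integer vector with entries at
most `H`.  No nontrivial real linear combination of the `n` rows of the combination
`∑_j z_j D_{t_j}` of `D` digit matrices at distinct places agrees outside `K` places with a sum of `E`
periodic sequences with total period at most `(1 - ε) m / (K + 1)`. -/
theorem rows (b : ℕ) (hb : 2 ≤ b) (n : ℕ) (α : Fin n → ℝ) (halg : ∀ k, IsAlgebraic ℚ (α k))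
    (hind : ∀ (q0 : ℚ) (q : Fin n → ℚ), (q0 : ℝ) + ∑ k, (q k : ℝ) * α k = 0 → q = 0)
    (H0 D E K C : ℕ) (ε : ℝ) (hε : 0 < ε) :
    ∃ M : ℕ, ∀ m : ℕ, M ≤ m → ∀ t : Fin D → ℕ, Function.Injective t → (∀ j, t j ≤ C * m) →
      ∀ z : Fin D → ℤ, z ≠ 0 → (∀ j, |z j| ≤ H0) →
      ∀ lam : Fin n → ℝ, lam ≠ 0 → ∀ p : Fin E → ℕ, (∀ l, 0 < p l) →
      ((∑ l, p l : ℕ) : ℝ) ≤ (1 - ε) * m / (K + 1) →
      ∀ f : Fin E → ℕ → ℝ, (∀ l i, f l (i + p l) = f l i) →
      K < ((Finset.range m).filter
        (fun i => ∑ j, (z j : ℝ) * (∑ k, lam k * (dig b (α k) (t j + i + 1) : ℝ)) ≠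
          ∑ l, f l i)).card := by
  classical
  obtain ⟨N, hN⟩ := exists_nat_gt (1 / ε)
  have hN0 : 0 < N := by
    rcases Nat.eq_zero_or_pos N with h | h
    · rw [h, Nat.cast_zero] at hN
      have : 0 < 1 / ε := by positivity
      linarith
    · exact h
  set R : ℕ := 2 * N * (K + 1) with hR
  have hR0 : 0 < R := by rw [hR]; positivity
  obtain ⟨H, hH⟩ := uniform_rel n (D * (H0 * (2 ^ E * (2 ^ E * b))))
  obtain ⟨M, hM⟩ := tuple_core b hb n α halg hind H (D * 2 ^ E) (D * (H0 * 2 ^ E))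
    (2 * R * (C + 2))
  refine ⟨R * (M + 1), ?_⟩
  intro m hm t ht htC z hz0 hzH lam hlam p hp hsum f hf
  by_contra hcon
  push Not at hcon
  obtain ⟨h1, h2, h3, h4⟩ := perPoly_props E p hp
  have hm'1 : (m / R) * R ≤ m := Nat.div_mul_le_self _ _
  have hm'2 : m < (m / R + 1) * R := by
    have := Nat.lt_div_mul_add (a := m) hR0
    rw [Nat.add_mul, one_mul]; omega
  have hm'M : M + 1 ≤ m / R := by
    rw [Nat.le_div_iff_mul_le hR0]
    rw [mul_comm]; exact hm
  have hεN : 1 < ε * N := by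
    rw [div_lt_iff₀ hε] at hN; linarith
  have hfit : (∑ l, p l) + m / R ≤ m / (K + 1) :=
    fit ε hε N K m (∑ l, p l) hεN (by rw [← hR]; omega) hsum
  set w : ℕ := m / (K + 1) with hw
  set m' : ℕ := m / R with hm'
  have hw1 : w * (K + 1) ≤ m := Nat.div_mul_le_self _ _
  obtain ⟨u, hu1, hu2⟩ := exists_gap m K w hw1 _ hcon
  have hagree : ∀ i, u ≤ i → i < u + w →
      ∑ j, (z j : ℝ) * (∑ k, lam k * (dig b (α k) (t j + i + 1) : ℝ)) = ∑ l, f l i := by
    intro i hi1 hi2
    have h5 := hu2 i hi1 hi2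
    rw [Finset.mem_filter, not_and, not_not] at h5
    exact h5 (Finset.mem_range.2 (by omega))
  set v : Fin n → Fin m' → ℤ :=
    fun k i => ∑ j, z j * act (perPoly p) (dig b (α k)) (t j + (u + i.val) + 1) with hv
  have hvrel : ∀ i, ∑ k, lam k * (v k i : ℝ) = 0 := by
    intro i
    have hi := i.isLt
    have e1 : ∀ k j, ((act (perPoly p) (dig b (α k)) (t j + (u + i.val) + 1) : ℤ) : ℝ) =
        act (perPoly p) (fun l => (dig b (α k) (t j + l + 1) : ℝ)) (u + i.val) := by
      intro k j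
      rw [← act_cast, act_eq, act_eq]
      apply Finset.sum_congr rfl
      intro l _
      have : t j + (u + i.val) + 1 + l = t j + (u + i.val + l) + 1 := by omega
      rw [this]
    have e2 : ∑ k, lam k * (v k i : ℝ) =
        act (perPoly p) (fun l => ∑ j, (z j : ℝ) *
          (∑ k, lam k * (dig b (α k) (t j + l + 1) : ℝ))) (u + i.val) := by
      have e3 : ∑ k, lam k * (v k i : ℝ) = ∑ j, (z j : ℝ) * ∑ k, lam k *
          ((act (perPoly p) (dig b (α k)) (t j + (u + i.val) + 1) : ℤ) : ℝ) := by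
        simp only [hv]
        push_cast
        simp_rw [Finset.mul_sum]
        rw [Finset.sum_comm]
        apply Finset.sum_congr rfl
        intro j _
        apply Finset.sum_congr rfl
        intro k _
        ring
      rw [e3, act_eq]
      simp_rw [e1, act_eq]
      simp_rw [Finset.mul_sum, Finset.smul_sum]
      rw [sum_comm3]
      apply Finset.sum_congr rfl
      intro l _
      apply Finset.sum_congr rfl
      intro j _
      apply Finset.sum_congr rfl
      intro k _
      simp only [zsmul_eq_mul]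
      ring
    rw [e2, act_congr (perPoly p) _ (∑ l, f l) (u + i.val), act_perPoly p f hf]
    · rfl
    · intro k hk
      rw [Finset.sum_apply]
      exact hagree _ (by omega) (by
        have := hk.trans h4
        omega)
  have hvB : ∀ k i, |v k i| ≤ ((D * (H0 * (2 ^ E * (2 ^ E * b))) : ℕ) : ℤ) := by
    intro k i
    refine (Finset.abs_sum_le_sum_abs _ _).trans ?_
    have h5 : ∀ j ∈ (Finset.univ : Finset (Fin D)),
        |z j * act (perPoly p) (dig b (α k)) (t j + (u + i.val) + 1)| ≤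
          ((H0 * (2 ^ E * (2 ^ E * b)) : ℕ) : ℤ) := by
      intro j _
      rw [abs_mul, Nat.cast_mul]
      exact mul_le_mul (hzH j)
        (abs_act_le (perPoly p) (dig b (α k)) (2 ^ E) (2 ^ E) b h2 h3 (dig_abs hb _) _)
        (abs_nonneg _) (by positivity)
    refine (Finset.sum_le_card_nsmul _ _ _ h5).trans ?_
    rw [nsmul_eq_mul, Nat.cast_mul]
    simp
  have hindep : LinearIndependent ℚ (fun (k : Fin n) (i : Fin m') => (v k i : ℚ)) := by
    by_contra hdep
    rw [← LinearIndependent.iff_fractionRing (R := ℤ), Fintype.not_linearIndependent_iff] at hdep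
    obtain ⟨g, hg, j0, hj0⟩ := hdep
    obtain ⟨g', hg'0, hg'H, hg'⟩ := hH m' v hvB
      ⟨g, fun h => hj0 (by rw [h]; rfl), by
        intro i
        have h1 := congrFun hg i
        rw [Finset.sum_apply] at h1
        have h2 : ∑ j, (g j : ℚ) * (v j i : ℚ) = 0 := by
          rw [← h1.trans (Pi.zero_apply i)]
          apply Finset.sum_congr rfl
          intro j _
          rw [Pi.smul_apply, zsmul_eq_mul]
        exact_mod_cast h2⟩
    have htinj : Function.Injective (fun j => t j + u) := by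
      intro j k hjk
      exact ht (by simpa using hjk)
    have hsp0 : sp (fun j => t j + u) z ≠ 0 := by
      intro h0
      apply hz0
      funext j
      rw [← sp_coeff_self (fun j => t j + u) htinj z j, h0]; simp
    obtain ⟨i, hi1, hi2, hi3⟩ := hM g' hg'0 hg'H m' (by omega)
      (sp (fun j => t j + u) z * perPoly p) (mul_ne_zero hsp0 h1)
      ((support_mul_card _ _).trans (Nat.mul_le_mul (sp_supp_card _ _) h2))
      (by
        intro i
        have := coeff_sp_mul_bound (fun j => t j + u) z (perPoly p) H0 (2 ^ E) hzH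
          (by exact_mod_cast h3) i
        exact_mod_cast this)
      (by
        refine natDegree_mul_le.trans ?_
        have h5 : (sp (fun j => t j + u) z).natDegree ≤ C * m + m :=
          sp_natDegree _ _ _ (fun j => Nat.add_le_add (htC j) (by omega))
        have hwm : w ≤ m := by
          rw [hw]; exact Nat.div_le_self _ _
        have h6 : (perPoly p).natDegree ≤ m := h4.trans (by omega)
        have h7 : m ≤ 2 * R * m' := by
          have : (m' + 1) * R ≤ 2 * R * m' := by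
            have : m' + 1 ≤ 2 * m' := by omega
            calc (m' + 1) * R ≤ (2 * m') * R := Nat.mul_le_mul_right _ this
              _ = 2 * R * m' := by ring
          omega
        calc (sp (fun j => t j + u) z).natDegree + (perPoly p).natDegree
            ≤ (C * m + m) + m := Nat.add_le_add h5 h6
          _ = (C + 2) * m := by ring
          _ ≤ (C + 2) * (2 * R * m') := Nat.mul_le_mul_left _ h7
          _ = 2 * R * (C + 2) * m' := by ring)
    apply hi3
    rw [act_mul, sp_act]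
    have h5 := hg' ⟨i - 1, by omega⟩
    have e4 : ∀ x, act (perPoly p) (fun i => ∑ k, g' k * dig b (α k) i) x =
        ∑ k, g' k * act (perPoly p) (dig b (α k)) x := by
      intro x
      simp_rw [act_eq, Finset.mul_sum]
      rw [Finset.sum_comm]
      apply Finset.sum_congr rfl
      intro j _
      rw [Finset.smul_sum]
      apply Finset.sum_congr rfl
      intro k _
      rw [smul_eq_mul, smul_eq_mul]; ring
    rw [← h5]
    simp_rw [e4, hv, Finset.mul_sum]
    rw [Finset.sum_comm]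
    apply Finset.sum_congr rfl
    intro k _
    apply Finset.sum_congr rfl
    intro j _
    have h6 : i + (t j + u) = t j + (u + (i - 1)) + 1 := by omega
    rw [h6]
    ring
  exact hlam (real_indep v hindep lam hvrel)

/-- **Rank one combinations.**  The combinations `∑_j ∑_k lam_j c_k a_{k, t_j + i + 1}` in which one of
the two factors `lam`, `c` is an integer vector with entries at most `H`. -/
theorem rankone (b : ℕ) (hb : 2 ≤ b) (n : ℕ) (α : Fin n → ℝ) (halg : ∀ k, IsAlgebraic ℚ (α k))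
    (hind : ∀ (q0 : ℚ) (q : Fin n → ℚ), (q0 : ℝ) + ∑ k, (q k : ℝ) * α k = 0 → q = 0)
    (H D E K C : ℕ) (ε : ℝ) (hε : 0 < ε) :
    ∃ M : ℕ, ∀ m : ℕ, M ≤ m → ∀ t : Fin D → ℕ, Function.Injective t → (∀ j, t j ≤ C * m) →
      ∀ (lam : Fin D → ℝ) (c : Fin n → ℝ), lam ≠ 0 → c ≠ 0 →
      ((∀ j, ∃ z : ℤ, |z| ≤ H ∧ lam j = z) ∨ (∀ k, ∃ z : ℤ, |z| ≤ H ∧ c k = z)) →
      ∀ p : Fin E → ℕ, (∀ l, 0 < p l) → ((∑ l, p l : ℕ) : ℝ) ≤ (1 - ε) * m / (K + 1) →
      ∀ f : Fin E → ℕ → ℝ, (∀ l i, f l (i + p l) = f l i) →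
      K < ((Finset.range m).filter
        (fun i => ∑ j, ∑ k, lam j * c k * (dig b (α k) (t j + i + 1) : ℝ) ≠ ∑ l, f l i)).card := by
  obtain ⟨M1, hM1⟩ := tuple b hb n α halg hind H D E K C ε hε
  obtain ⟨M2, hM2⟩ := rows b hb n α halg hind H D E K C ε hε
  refine ⟨max M1 M2, ?_⟩
  intro m hm t ht htC lam c hlam hc hint p hp hsum f hf
  rcases hint with h | h
  · choose z hzH hz using h
    have hz0 : z ≠ 0 := by
      rintro rfl
      apply hlam
      funext j
      rw [hz j]; simp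
    have h1 := hM2 m ((le_max_right _ _).trans hm) t ht htC z hz0 hzH c hc p hp hsum f hf
    have h2 : ∀ i, ∑ j, ∑ k, lam j * c k * (dig b (α k) (t j + i + 1) : ℝ) =
        ∑ j, (z j : ℝ) * (∑ k, c k * (dig b (α k) (t j + i + 1) : ℝ)) := by
      intro i
      apply Finset.sum_congr rfl
      intro j _
      rw [Finset.mul_sum, hz j]
      apply Finset.sum_congr rfl
      intro k _
      ring
    simp_rw [h2]
    exact h1
  · choose z hzH hz using h
    have hz0 : z ≠ 0 := by
      rintro rfl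
      apply hc
      funext j
      rw [hz j]; simp
    have h1 := hM1 z hz0 hzH m ((le_max_left _ _).trans hm) t ht htC lam hlam p hp hsum f hf
    have h2 : ∀ i, ∑ j, ∑ k, lam j * c k * (dig b (α k) (t j + i + 1) : ℝ) =
        ∑ j, lam j * (∑ k, (z k : ℝ) * (dig b (α k) (t j + i + 1) : ℝ)) := by
      intro i
      apply Finset.sum_congr rfl
      intro j _
      rw [Finset.mul_sum]
      apply Finset.sum_congr rfl
      intro k _
      rw [hz k]; ring
    simp_rw [h2]
    exact h1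

end Pool.Agent.H352.Win
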